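import Pool.Agent.E8helper20.CTM.StmD
import Pool.Agent.E8helper51.CTK3.Box3
import Pool.Agent.Y170.XL.BOX

/-!
# Project CTM, part M4 (helper56): the count in a box, with one additional vertex

The generalisation of `Pool/Agent/E8helper56/CTL3/BoxL.lean` from the edges `cs π 3` to the edges
`lf a b π`.
-/

set_option autoImplicit false

open scoped Classical

namespace Pool.Agent.E8helper56.CTM

open Finset
open Pool.Agent.Y692.QS (Ei)
open Pool.Agent.Y715.T.Rec (cs)
open Pool.Agent.Y715.T.RecG (Pq)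
open Pool.Agent.Y703.XK (prs HB S_EQ)
open Pool.Agent.Y703.XL (nA cr)
open Pool.Agent.Y688.XK (cs_symm ext_sum HB_sub)
open Pool.Agent.Y170.XL (em em_bij fe fe_one fe_two sum_em)
open Pool.Agent.R419.KF (wt wt_one wt_ne)
open Pool.Agent.E8helper20.CTM (c2 c3 lf Nd9 n1 BoxM S_BOX1)
open Pool.Agent.E8helper51.CTK3 (wo wo_ne ext_symm sum_lap)

/-- the label of a prime with respect to the small primes and modulo `9` -/
noncomputable def lb9 (S₀ : Finset Ei) (x : Ei) : Option (Option S₀) → ZMod 3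
  | none => c2 x
  | some none => c3 x
  | some (some u) => cs u x

/-- the good labels -/
def LN9 {ι : Type} (S₀ : Finset Ei) (β : ι → Option (Option S₀) → ZMod 3) : Prop :=
  ∀ (a b : ZMod 3) (w : S₀ → ZMod 3), (a ≠ 0 ∨ b ≠ 0 ∨ ∃ u, w u ≠ 0) →
    ∃ i, a * β i none + b * β i (some none) + ∑ u, w u * β i (some (some u)) ≠ 0

/-- the block of the small primes and the additional vertex, with the edges `f` -/
noncomputable def AF (f : Ei → ZMod 3) (M S₀ : Finset Ei) : Option S₀ → Option S₀ → ZMod 3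
  | none, none => 0
  | none, some v => wt M v * f v
  | some u, none => wt M u * f u
  | some u, some v => wt M u * wt M v * cs u v

/-- the edges to a large prime -/
noncomputable def lbf (f : Ei → ZMod 3) (S₀ : Finset Ei) (x : Ei) : Option S₀ → ZMod 3
  | none => f x
  | some u => cs u x

/-- the edges to a large prime in terms of its label -/
noncomputable def bB {S₀ : Finset Ei} (a b : ZMod 3) (β : Option (Option S₀) → ZMod 3) :
    Option S₀ → ZMod 3
  | none => a * β none + b * β (some none)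
  | some u => β (some (some u))

theorem bB_lb9 (S₀ : Finset Ei) (a b : ZMod 3) (x : Ei) :
    bB a b (lb9 S₀ x) = lbf (lf a b) S₀ x := by
  funext u
  rcases u with _ | u
  · rfl
  · rfl

/-- the number of the solutions with the value zero at the additional vertex -/
noncomputable def nF (f : Ei → ZMod 3) (M S : Finset Ei) : ℕ :=
  Nat.card {v : S → ZMod 3 //
    ∀ π : S, ∑ ρ : S, wt M ρ * cs π ρ * (v ρ - v π) = f π * v π}

section one
variable {ι : Type} [Fintype ι] [LinearOrder ι] {M S₀ : Finset Ei} {p : ι → Ei}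
  {f : Ei → ZMod 3}

omit [LinearOrder ι] in
theorem nd9_iff : Nd9 S₀ (univ.image p) ↔ LN9 S₀ (fun i => lb9 S₀ (p i)) := by
  unfold Nd9 LN9
  constructor
  · intro h a b w hw
    obtain ⟨v, hv⟩ : ∃ v : Ei → ZMod 3, ∀ n, v n = if h : n ∈ S₀ then w ⟨n, h⟩ else 0 :=
      ⟨_, fun _ => rfl⟩
    have hvu : ∀ u : S₀, v u = w u := fun u => by rw [hv, dif_pos u.2]
    obtain ⟨x, hx, hx2⟩ := h a b v (by
      rcases hw with hw | hw | ⟨u, hu⟩
      · exact Or.inl hw
      · exact Or.inr (Or.inl hw)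
      · exact Or.inr (Or.inr ⟨u, u.2, by rw [hvu]; exact hu⟩))
    rw [Finset.mem_image] at hx
    obtain ⟨i, -, rfl⟩ := hx
    refine ⟨i, ?_⟩
    rw [← Finset.sum_coe_sort S₀] at hx2
    intro h0
    apply hx2
    rw [← h0]
    unfold lf
    congr 1
    refine Finset.sum_congr rfl fun u _ => ?_
    rw [hvu]
    rfl
  · intro h a b v hw
    obtain ⟨i, hi⟩ := h a b (fun u => v u) (by
      rcases hw with hw | hw | ⟨u, hu0, hu⟩
      · exact Or.inl hw
      · exact Or.inr (Or.inl hw)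
      · exact Or.inr (Or.inr ⟨⟨u, hu0⟩, hu⟩))
    refine ⟨p i, Finset.mem_image_of_mem _ (Finset.mem_univ _), ?_⟩
    rw [← Finset.sum_coe_sort S₀]
    unfold lf
    exact hi


/-- the system with the value `0` at the vertex `3` -/
def YY (f : Ei → ZMod 3) (M S₀ : Finset Ei) (p : ι → Ei) (c : S₀ → ZMod 3) (d : ι → ZMod 3) : Prop :=
  (∀ u : S₀, ∑ v : S₀, wt M u * wt M v * cs u v * (c v - c u) + wt M u * f u * (0 - c u) +
    ∑ l, wt M u * cs u (p l) * (d l - c u) = 0) ∧
  (∀ k : ι, ∑ u : S₀, wt M u * cs u (p k) * (c u - d k) + f (p k) * (0 - d k) +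
    ∑ l, Pool.Agent.Y703.XK.ext (fun e : prs ι => cs (p e.1.1) (p e.1.2)) k l *
      (d l - d k) = 0)

theorem sol_iff (hM : M ⊆ S₀) (hp : Function.Injective p) (hpr : ∀ i, Pq (p i))
    (hS₀ : ∀ u ∈ S₀, Pq u) (hd : ∀ i, p i ∉ S₀) (v : ↥(S₀ ∪ univ.image p) → ZMod 3) :
    (∀ π : ↥(S₀ ∪ univ.image p), ∑ ρ : ↥(S₀ ∪ univ.image p), wt M ρ * cs π ρ * (v ρ - v π) =
      f π * v π) ↔
    YY f M S₀ p (fun u => v (em S₀ p (Sum.inl u))) (fun l => v (em S₀ p (Sum.inr l))) := by
  have hw : ∀ i, wt M (em S₀ p (Sum.inr i) : Ei) = 1 := fun i => wt_one fun h => hd i (hM h)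
  have hsym : ∀ k : ι, ∑ u : S₀, wt M u * cs (p k) u *
      (v (em S₀ p (Sum.inl u)) - v (em S₀ p (Sum.inr k))) =
      ∑ u : S₀, wt M u * cs u (p k) *
        (v (em S₀ p (Sum.inl u)) - v (em S₀ p (Sum.inr k))) := by
    intro k
    refine Finset.sum_congr rfl fun u _ => ?_
    rw [cs_symm (hpr k) (hS₀ u u.2)]
  have hext := fun k => ext_sum hpr k (fun l => v (em S₀ p (Sum.inr l)))
  -- the rows
  have hrow1 : ∀ u : S₀, ∑ ρ : ↥(S₀ ∪ univ.image p), wt M ρ * cs u ρ *
      (v ρ - v (em S₀ p (Sum.inl u))) =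
      ∑ w : S₀, wt M w * cs u w * (v (em S₀ p (Sum.inl w)) - v (em S₀ p (Sum.inl u))) +
      ∑ l, cs u (p l) * (v (em S₀ p (Sum.inr l)) - v (em S₀ p (Sum.inl u))) := by
    intro u
    rw [sum_em hp hd]
    congr 1
    refine Finset.sum_congr rfl fun l _ => ?_
    rw [hw, one_mul]
    rfl
  have hrow2 : ∀ k : ι, ∑ ρ : ↥(S₀ ∪ univ.image p), wt M ρ * cs (p k) ρ *
      (v ρ - v (em S₀ p (Sum.inr k))) =
      ∑ w : S₀, wt M w * cs (p k) w * (v (em S₀ p (Sum.inl w)) - v (em S₀ p (Sum.inr k))) +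
      ∑ l, cs (p k) (p l) * (v (em S₀ p (Sum.inr l)) - v (em S₀ p (Sum.inr k))) := by
    intro k
    rw [sum_em hp hd]
    congr 1
    refine Finset.sum_congr rfl fun l _ => ?_
    rw [hw, one_mul]
    rfl
  have hmul : ∀ u : S₀, ∑ w : S₀, wt M u * wt M w * cs u w *
      (v (em S₀ p (Sum.inl w)) - v (em S₀ p (Sum.inl u))) +
      wt M u * f u * (0 - v (em S₀ p (Sum.inl u))) +
      ∑ l, wt M u * cs u (p l) * (v (em S₀ p (Sum.inr l)) - v (em S₀ p (Sum.inl u))) =
      wt M u * ((∑ w : S₀, wt M w * cs u w *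
        (v (em S₀ p (Sum.inl w)) - v (em S₀ p (Sum.inl u))) +
      ∑ l, cs u (p l) * (v (em S₀ p (Sum.inr l)) - v (em S₀ p (Sum.inl u)))) -
        f u * v (em S₀ p (Sum.inl u))) := by
    intro u
    have a1 : ∑ w : S₀, wt M u * wt M w * cs u w *
        (v (em S₀ p (Sum.inl w)) - v (em S₀ p (Sum.inl u))) =
        wt M u * ∑ w : S₀, wt M w * cs u w *
        (v (em S₀ p (Sum.inl w)) - v (em S₀ p (Sum.inl u))) := by
      rw [Finset.mul_sum]
      exact Finset.sum_congr rfl fun v _ => by ring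
    have a2 : ∑ l, wt M u * cs u (p l) * (v (em S₀ p (Sum.inr l)) - v (em S₀ p (Sum.inl u))) =
        wt M u * ∑ l, cs u (p l) * (v (em S₀ p (Sum.inr l)) - v (em S₀ p (Sum.inl u))) := by
      rw [Finset.mul_sum]
      exact Finset.sum_congr rfl fun v _ => by ring
    rw [a1, a2]
    ring
  constructor
  · intro h
    refine ⟨fun u => ?_, fun k => ?_⟩
    · have h1 := (hrow1 u).symm.trans (h (em S₀ p (Sum.inl u)))
      refine (hmul u).trans ?_
      rw [h1]
      change wt M u * (f u * v (em S₀ p (Sum.inl u)) - f u * v (em S₀ p (Sum.inl u))) = 0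
      rw [sub_self, mul_zero]
    · have h2 := (hrow2 k).symm.trans (h (em S₀ p (Sum.inr k)))
      rw [hsym, ← hext k] at h2
      have h3 : ∑ u : S₀, wt M u * cs u (p k) *
          (v (em S₀ p (Sum.inl u)) - v (em S₀ p (Sum.inr k))) +
          ∑ l, Pool.Agent.Y703.XK.ext (fun e : prs ι => cs (p e.1.1) (p e.1.2)) k l *
          (v (em S₀ p (Sum.inr l)) - v (em S₀ p (Sum.inr k))) =
          f (p k) * v (em S₀ p (Sum.inr k)) := h2
      change ∑ u : S₀, wt M u * cs u (p k) *
          (v (em S₀ p (Sum.inl u)) - v (em S₀ p (Sum.inr k))) +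
          f (p k) * (0 - v (em S₀ p (Sum.inr k))) +
          ∑ l, Pool.Agent.Y703.XK.ext (fun e : prs ι => cs (p e.1.1) (p e.1.2)) k l *
          (v (em S₀ p (Sum.inr l)) - v (em S₀ p (Sum.inr k))) = 0
      linear_combination h3
  · rintro ⟨h1, h2⟩ x
    obtain ⟨y, rfl⟩ := (em_bij hp hd).2 x
    rcases y with u | k
    · refine (hrow1 u).trans ?_
      have h3 := (hmul u).symm.trans (h1 u)
      exact sub_eq_zero.1 ((mul_eq_zero.1 h3).resolve_left (wt_ne M _))
    · have h3 : ∑ u : S₀, wt M u * cs u (p k) *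
          (v (em S₀ p (Sum.inl u)) - v (em S₀ p (Sum.inr k))) +
          f (p k) * (0 - v (em S₀ p (Sum.inr k))) +
        ∑ l, Pool.Agent.Y703.XK.ext (fun e : prs ι => cs (p e.1.1) (p e.1.2)) k l *
          (v (em S₀ p (Sum.inr l)) - v (em S₀ p (Sum.inr k))) = 0 := h2 k
      rw [hext k, ← hsym] at h3
      refine (hrow2 k).trans ?_
      change _ = f (p k) * v (em S₀ p (Sum.inr k))
      linear_combination h3

/-- the block system with the vertex `3` -/
theorem sys_iff (hS₀ : ∀ u ∈ S₀, Pq u) (t : ZMod 3) (c : S₀ → ZMod 3) (d : ι → ZMod 3)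
    (a : Option S₀ → ZMod 3) (b : ι → ZMod 3) (ha0 : a none = t)
    (ha : ∀ u, a (some u) = c u + t) (hb : ∀ l, b l = d l + t) :
    ((∀ u, ∑ v, AF f M S₀ u v * (a v - a u) +
        ∑ l, wo M S₀ u * lbf f S₀ (p l) u * (b l - a u) = 0) ∧
      (∀ k, ∑ u, wo M S₀ u * lbf f S₀ (p k) u * (a u - b k) +
        ∑ l, Pool.Agent.Y703.XK.ext (fun e : prs ι => cs (p e.1.1) (p e.1.2)) k l *
          (b l - b k) = 0)) ↔ YY f M S₀ p c d := by
  have r1 : ∀ u : S₀, ∑ v, AF f M S₀ (some u) v * (a v - a (some u)) +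
        ∑ l, wo M S₀ (some u) * lbf f S₀ (p l) (some u) * (b l - a (some u)) =
      ∑ v : S₀, wt M u * wt M v * cs u v * (c v - c u) + wt M u * f u * (0 - c u) +
        ∑ l, wt M u * cs u (p l) * (d l - c u) := by
    intro u
    rw [Fintype.sum_option]
    simp only [AF, wo, lbf, ha0, ha, hb, add_sub_add_right_eq_sub]
    ring
  have r2 : ∀ k : ι, ∑ u, wo M S₀ u * lbf f S₀ (p k) u * (a u - b k) +
        ∑ l, Pool.Agent.Y703.XK.ext (fun e : prs ι => cs (p e.1.1) (p e.1.2)) k l *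
          (b l - b k) =
      ∑ u : S₀, wt M u * cs u (p k) * (c u - d k) + f (p k) * (0 - d k) +
      ∑ l, Pool.Agent.Y703.XK.ext (fun e : prs ι => cs (p e.1.1) (p e.1.2)) k l *
        (d l - d k) := by
    intro k
    rw [Fintype.sum_option]
    simp only [wo, lbf, ha0, ha, hb, add_sub_add_right_eq_sub]
    ring
  constructor
  · rintro ⟨h1, h2⟩
    exact ⟨fun u => (r1 u).symm.trans (h1 (some u)), fun k => (r2 k).symm.trans (h2 k)⟩
  · rintro ⟨h1, h2⟩
    have q1 : ∀ u : S₀, ∑ v, AF f M S₀ (some u) v * (a v - a (some u)) +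
        ∑ l, wo M S₀ (some u) * lbf f S₀ (p l) (some u) * (b l - a (some u)) = 0 :=
      fun u => (r1 u).trans (h1 u)
    have q2 : ∀ k : ι, ∑ u, wo M S₀ u * lbf f S₀ (p k) u * (a u - b k) +
        ∑ l, Pool.Agent.Y703.XK.ext (fun e : prs ι => cs (p e.1.1) (p e.1.2)) k l *
          (b l - b k) = 0 := fun k => (r2 k).trans (h2 k)
    have q3 : ∑ v, AF f M S₀ none v * (a v - a none) +
        ∑ l, wo M S₀ none * lbf f S₀ (p l) none * (b l - a none) = 0 := by
      have s1 := sum_lap (AF f M S₀) (by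
        intro k l
        rcases k with _ | u <;> rcases l with _ | v
        · rfl
        · rfl
        · rfl
        · simp only [AF]
          rw [cs_symm (hS₀ u u.2) (hS₀ v v.2)]
          ring) a
      have s2 := sum_lap (Pool.Agent.Y703.XK.ext (fun e : prs ι => cs (p e.1.1) (p e.1.2)))
        (ext_symm _) b
      have s3 : ∑ u, ∑ l, wo M S₀ u * lbf f S₀ (p l) u * (b l - a u) +
          ∑ k, ∑ u, wo M S₀ u * lbf f S₀ (p k) u * (a u - b k) = 0 := by
        rw [Finset.sum_comm, ← Finset.sum_add_distrib]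
        refine Finset.sum_eq_zero fun k _ => ?_
        rw [← Finset.sum_add_distrib]
        refine Finset.sum_eq_zero fun u _ => ?_
        ring
      have s4 : ∑ k, (∑ u, wo M S₀ u * lbf f S₀ (p k) u * (a u - b k) +
        ∑ l, Pool.Agent.Y703.XK.ext (fun e : prs ι => cs (p e.1.1) (p e.1.2)) k l *
          (b l - b k)) = 0 := Finset.sum_eq_zero fun k _ => q2 k
      have s5 : ∑ u : S₀, (∑ v, AF f M S₀ (some u) v * (a v - a (some u)) +
        ∑ l, wo M S₀ (some u) * lbf f S₀ (p l) (some u) * (b l - a (some u))) = 0 :=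
        Finset.sum_eq_zero fun u _ => q1 u
      rw [Fintype.sum_option] at s1
      rw [Fintype.sum_option] at s3
      rw [Finset.sum_add_distrib] at s4 s5
      rw [s2, add_zero] at s4
      rw [s4, add_zero] at s3
      linear_combination s1 + s3 - s5
    refine ⟨fun u => ?_, q2⟩
    rcases u with _ | u
    · exact q3
    · exact q1 u

/-- the functions on all the vertices -/
noncomputable def fo (hp : Function.Injective p) (hd : ∀ i, p i ∉ S₀) :
    (ZMod 3 × (↥(S₀ ∪ univ.image p) → ZMod 3)) ≃ (Option S₀ → ZMod 3) × (ι → ZMod 3) where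
  toFun y := (fun o => match o with
    | none => y.1
    | some u => (fe hp hd y.2).1 u + y.1, fun l => (fe hp hd y.2).2 l + y.1)
  invFun x := (x.1 none, (fe hp hd).symm (fun u => x.1 (some u) - x.1 none, fun l => x.2 l - x.1 none))
  left_inv y := by
    refine Prod.ext rfl ?_
    change (fe hp hd).symm (fun u => (fe hp hd y.2).1 u + y.1 - y.1,
      fun l => (fe hp hd y.2).2 l + y.1 - y.1) = y.2
    simp only [add_sub_cancel_right]
    exact (fe hp hd).symm_apply_apply y.2
  right_inv x := by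
    refine Prod.ext (funext fun o => ?_) (funext fun l => ?_)
    · rcases o with _ | u
      · rfl
      · change (fe hp hd ((fe hp hd).symm _)).1 u + x.1 none = x.1 (some u)
        rw [(fe hp hd).apply_symm_apply]
        exact sub_add_cancel _ _
    · change (fe hp hd ((fe hp hd).symm _)).2 l + x.1 none = x.2 l
      rw [(fe hp hd).apply_symm_apply]
      exact sub_add_cancel _ _

/-- **the numbers of solutions** -/
theorem nA_eq (hM : M ⊆ S₀) (hp : Function.Injective p) (hpr : ∀ i, Pq (p i))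
    (hS₀ : ∀ u ∈ S₀, Pq u) (hd : ∀ i, p i ∉ S₀) :
    nA (AF f M S₀) (fun u l => wo M S₀ u * lbf f S₀ (p l) u)
      (Pool.Agent.Y703.XK.ext fun e : prs ι => cs (p e.1.1) (p e.1.2)) =
      3 * nF f M (S₀ ∪ univ.image p) := by
  have h1 : Nat.card {y : ZMod 3 × (↥(S₀ ∪ univ.image p) → ZMod 3) //
      ∀ π : ↥(S₀ ∪ univ.image p), ∑ ρ : ↥(S₀ ∪ univ.image p), wt M ρ * cs π ρ * (y.2 ρ - y.2 π) =
      f π * y.2 π} = 3 * nF f M (S₀ ∪ univ.image p) := by
    have e : {y : ZMod 3 × (↥(S₀ ∪ univ.image p) → ZMod 3) //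
      ∀ π : ↥(S₀ ∪ univ.image p), ∑ ρ : ↥(S₀ ∪ univ.image p), wt M ρ * cs π ρ * (y.2 ρ - y.2 π) =
      f π * y.2 π} ≃ ZMod 3 × {v : ↥(S₀ ∪ univ.image p) → ZMod 3 //
        ∀ π : ↥(S₀ ∪ univ.image p), ∑ ρ : ↥(S₀ ∪ univ.image p), wt M ρ * cs π ρ * (v ρ - v π) =
      f π * v π} :=
      { toFun := fun y => (y.1.1, ⟨y.1.2, y.2⟩)
        invFun := fun z => ⟨(z.1, z.2.1), z.2.2⟩
        left_inv := fun _ => rfl
        right_inv := fun _ => rfl }
    rw [Nat.card_congr e, Nat.card_prod, Nat.card_zmod]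
    rfl
  rw [← h1]
  unfold nA
  refine (Nat.card_congr (Equiv.subtypeEquiv (fo hp hd) fun y => ?_)).symm
  rw [sol_iff hM hp hpr hS₀ hd]
  exact (sys_iff hS₀ y.1 _ _ _ _ rfl (fun u => rfl) (fun l => rfl)).symm

/-- the pairs whose solution space has dimension `r` -/
def G1 (a b : ZMod 3) (r : ℕ) (M S : Finset Ei) : Prop := n1 a b M S = 3 ^ r

theorem n1_iff (hM : M ⊆ S₀) (hp : Function.Injective p) (hpr : ∀ i, Pq (p i))
    (hS₀ : ∀ u ∈ S₀, Pq u) (hd : ∀ i, p i ∉ S₀) (a b : ZMod 3) (r : ℕ) :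
    G1 a b r M (S₀ ∪ univ.image p) ↔
      nA (AF (lf a b) M S₀) (fun u l => wo M S₀ u * bB a b (lb9 S₀ (p l)) u)
      (Pool.Agent.Y703.XK.ext fun e : prs ι => cs (p e.1.1) (p e.1.2)) = 3 ^ (r + 1) := by
  simp only [bB_lb9]
  rw [nA_eq (f := lf a b) hM hp hpr hS₀ hd, pow_succ']
  have h0 : nF (lf a b) M (S₀ ∪ univ.image p) = n1 a b M (S₀ ∪ univ.image p) := rfl
  rw [h0]
  unfold G1
  constructor
  · intro h
    rw [h]
  · intro h
    exact Nat.eq_of_mul_eq_mul_left (by norm_num) h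

end one

/-- **The count in a box.** -/
theorem box1 (hEQ : S_EQ) (hLA : Pool.Agent.Y703.XL.S_LA) (a b : ZMod 3) (hab : a ≠ 0 ∨ b ≠ 0)
    (r : ℕ) : BoxM (G1 a b r) (cr r) (3 ^ (r + 1)) := by
  intro ι _ _ C X κ M S₀ hM hκ hCX hHB hS₀ hC hdis hcard
  obtain ⟨cc, hcc⟩ : ∃ cc : ℝ, cc = 3 ^ (r + 1) * (3 ^ (S₀.card + 1) / 3 ^ Fintype.card ι) :=
    ⟨_, rfl⟩
  obtain ⟨R, hR⟩ : ∃ R : ℝ, R = 3 ^ (prs ι).card * (κ * ∏ j, (X j : ℝ)) := ⟨_, rfl⟩
  have hcc0 : 0 ≤ cc := by rw [hcc]; positivity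
  have hR0 : 0 ≤ R := by
    rw [hR]
    exact mul_nonneg (by positivity)
      (mul_nonneg hκ (Finset.prod_nonneg fun j _ => by positivity))
  have hco : Fintype.card (Option S₀) = S₀.card + 1 := by
    rw [Fintype.card_option, Fintype.card_coe]
  -- facts on tuples
  have hinj : ∀ p ∈ Fintype.piFinset C, Function.Injective p := by
    intro p hp i j hij
    rw [Fintype.mem_piFinset] at hp
    by_contra hne
    have h1 := Finset.disjoint_left.1 (hdis i j hne) (hp i)
    rw [hij] at h1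
    exact h1 (hp j)
  have hd : ∀ p ∈ Fintype.piFinset C, ∀ i, p i ∉ S₀ := by
    intro p hp i
    rw [Fintype.mem_piFinset] at hp
    exact (hC i _ (hp i)).2
  have hpr : ∀ p ∈ Fintype.piFinset C, ∀ i, Pq (p i) := by
    intro p hp i
    rw [Fintype.mem_piFinset] at hp
    exact (hC i _ (hp i)).1
  -- the part with given labels
  have h1 : ∀ β : ι → Option (Option S₀) → ZMod 3, LN9 S₀ β →
      |(((Fintype.piFinset C).filter fun p => (fun i => lb9 S₀ (p i)) = β ∧
          G1 a b r M (S₀ ∪ univ.image p)).card : ℝ) -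
        cr r * (((Fintype.piFinset C).filter fun p => (fun i => lb9 S₀ (p i)) = β).card : ℝ)| ≤
      cc * (((Fintype.piFinset C).filter fun p => (fun i => lb9 S₀ (p i)) = β).card : ℝ) + R := by
    intro β hβ
    obtain ⟨C', hC'⟩ : ∃ C' : ι → Finset Ei, C' = fun i => (C i).filter fun q => lb9 S₀ q = β i :=
      ⟨_, rfl⟩
    have hpi : (Fintype.piFinset C).filter (fun p => (fun i => lb9 S₀ (p i)) = β) =
        Fintype.piFinset C' := by
      ext p
      simp only [Finset.mem_filter, Fintype.mem_piFinset, hC']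
      constructor
      · rintro ⟨h2, h3⟩ i
        exact ⟨h2 i, congrFun h3 i⟩
      · intro h2
        exact ⟨fun i => (h2 i).1, funext fun i => (h2 i).2⟩
    have h2 := hLA r (Option S₀) ι (AF (lf a b) M S₀) (fun u l => wo M S₀ u * bB a b (β l) u)
      (by rw [hco]; omega)
      (by
        intro u v
        rcases u with _ | u <;> rcases v with _ | v
        · rfl
        · rfl
        · rfl
        · simp only [AF]
          rw [cs_symm (hS₀ u u.2) (hS₀ v v.2), mul_comm (wt M u) (wt M v)])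
      (fun w hw => by
        obtain ⟨u, hu⟩ := hw
        obtain ⟨k, hk⟩ := hβ (w none * a) (w none * b) (fun u => w (some u) * wt M u) (by
          rcases u with _ | u
          · rcases hab with ha | hb
            · exact Or.inl (mul_ne_zero hu ha)
            · exact Or.inr (Or.inl (mul_ne_zero hu hb))
          · exact Or.inr (Or.inr ⟨u, mul_ne_zero hu (wt_ne M _)⟩))
        refine ⟨k, fun h0 => hk ?_⟩
        rw [← h0, Fintype.sum_option]
        simp only [bB, wo]
        have e1 : ∑ u : S₀, w (some u) * wt M u * β k (some (some u)) =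
            ∑ u : S₀, w (some u) * (wt M u * β k (some (some u))) :=
          Finset.sum_congr rfl fun u _ => mul_assoc _ _ _
        rw [e1]
        ring)
    obtain ⟨Q, hQ⟩ : ∃ Q : (prs ι → ZMod 3) → Prop, Q = fun α =>
        nA (AF (lf a b) M S₀) (fun u l => wo M S₀ u * bB a b (β l) u)
          (Pool.Agent.Y703.XK.ext α) = 3 ^ (r + 1) := ⟨_, rfl⟩
    have h3 := hEQ ι C' X κ hκ
      (fun i => (Finset.card_le_card (by rw [hC']; exact Finset.filter_subset _ _)).trans (hCX i))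
      (by rw [hC']; exact HB_sub hHB fun i q => lb9 S₀ q = β i) Q
    have h4 : ((Fintype.piFinset C).filter fun p => (fun i => lb9 S₀ (p i)) = β ∧
        G1 a b r M (S₀ ∪ univ.image p)) = ((Fintype.piFinset C').filter fun p =>
          Q fun e => cs (p e.1.1) (p e.1.2)) := by
      rw [← hpi, Finset.filter_filter]
      refine Finset.filter_congr fun p hp => ?_
      refine and_congr_right fun hl => ?_
      rw [n1_iff hM (hinj p hp) (hpr p hp) hS₀ (hd p hp)]
      subst hl
      rw [hQ]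
    have h5 : (((Fintype.piFinset C').card : ℕ) : ℝ) = ∏ j, ((C' j).card : ℝ) := by
      rw [Fintype.card_piFinset]
      push_cast
      rfl
    rw [h4, hpi, h5]
    rw [hco, ← hcc] at h2
    rw [← hR] at h3
    obtain ⟨n, hn⟩ : ∃ n : ℝ, n = (((Fintype.piFinset C').filter fun p =>
          Q fun e => cs (p e.1.1) (p e.1.2)).card : ℝ) := ⟨_, rfl⟩
    obtain ⟨q, hq⟩ : ∃ q : ℝ, q = ((univ.filter Q).card : ℝ) / 3 ^ (prs ι).card := ⟨_, rfl⟩
    obtain ⟨P, hP⟩ : ∃ P : ℝ, P = ∏ j, ((C' j).card : ℝ) := ⟨_, rfl⟩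
    have hP0 : 0 ≤ P := by
      rw [hP]
      exact Finset.prod_nonneg fun j _ => by positivity
    have h2' : |q - cr r| ≤ cc := by
      have e : (univ.filter Q) = (univ.filter fun α : prs ι → ZMod 3 =>
          nA (AF (lf a b) M S₀) (fun u l => wo M S₀ u * bB a b (β l) u)
            (Pool.Agent.Y703.XK.ext α) = 3 ^ (r + 1)) := by
        ext α
        rw [Finset.mem_filter, Finset.mem_filter, hQ]
      rw [hq, e]
      exact h2
    rw [← hn, ← hq, ← hP] at h3
    rw [← hn, ← hP]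
    have h6 : |n - cr r * P| ≤ |n - q * P| + |q - cr r| * P := by
      have h7 : n - cr r * P = (n - q * P) + (q - cr r) * P := by ring
      have h8 : |(q - cr r) * P| = |q - cr r| * P := by rw [abs_mul, abs_of_nonneg hP0]
      rw [h7, ← h8]
      exact abs_add_le _ _
    have h7 : |q - cr r| * P ≤ cc * P := mul_le_mul_of_nonneg_right h2' hP0
    linarith
  -- sum over the labels
  obtain ⟨LL, hLL⟩ : ∃ LL : Finset (ι → Option (Option S₀) → ZMod 3),
      LL = univ.filter (fun β => LN9 S₀ β) := ⟨_, rfl⟩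
  have hfib : ∀ T : (ι → Ei) → Prop,
      (((Fintype.piFinset C).filter fun p => Nd9 S₀ (univ.image p) ∧ T p).card : ℝ) =
      ∑ β ∈ LL, (((Fintype.piFinset C).filter fun p =>
        (fun i => lb9 S₀ (p i)) = β ∧ T p).card : ℝ) := by
    intro T
    rw [Finset.card_eq_sum_card_fiberwise (f := fun (p : ι → Ei) (i : ι) => lb9 S₀ (p i))
      (t := LL) (by
        intro p hp
        rw [Finset.mem_coe, Finset.mem_filter] at hp
        rw [Finset.mem_coe, hLL, Finset.mem_filter]
        exact ⟨Finset.mem_univ _, nd9_iff.1 hp.2.1⟩)]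
    push_cast
    refine Finset.sum_congr rfl fun β hβ => ?_
    rw [hLL, Finset.mem_filter] at hβ
    congr 2
    ext p
    simp only [Finset.mem_filter]
    constructor
    · rintro ⟨⟨h3, h4, h4'⟩, h5⟩
      exact ⟨h3, h5, h4'⟩
    · rintro ⟨h3, h4, h5⟩
      refine ⟨⟨h3, ?_, h5⟩, h4⟩
      rw [nd9_iff, h4]
      exact hβ.2
  have hf1 := hfib fun p => G1 a b r M (S₀ ∪ univ.image p)
  have hf2 := hfib fun _ => True
  simp only [and_true] at hf2
  rw [← hcc, hf1, hf2, Finset.mul_sum, ← Finset.sum_sub_distrib]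
  refine (Finset.abs_sum_le_sum_abs _ _).trans ?_
  refine (Finset.sum_le_sum fun β hβ => h1 β (by
    rw [hLL] at hβ
    exact (Finset.mem_filter.1 hβ).2)).trans ?_
  rw [Finset.sum_add_distrib, ← Finset.mul_sum, Finset.sum_const, nsmul_eq_mul]
  have h5 : ((LL.card : ℕ) : ℝ) ≤ 3 ^ ((S₀.card + 2) * Fintype.card ι) := by
    have h6 : LL.card ≤ Fintype.card (ι → Option (Option S₀) → ZMod 3) :=
      Finset.card_le_univ _
    rw [Fintype.card_fun, Fintype.card_fun, ZMod.card, Fintype.card_option, hco, ← pow_mul] at h6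
    exact_mod_cast h6
  have h6 := mul_le_mul_of_nonneg_right h5 hR0
  rw [pow_add, mul_assoc, ← hR]
  linarith

theorem t_BOX1 : S_BOX1 := fun hEQ hLA a b hab r => box1 hEQ hLA a b hab r

end Pool.Agent.E8helper56.CTM
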