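import Pool.Agent.E8helper20.CTM.StmX
import Pool.Agent.E8helper51.CTK3.Box3
import Pool.Agent.Y170.XL.BOX

/-!
# Project CTM, part X2 (helper56): the count in a box for the multiplier `1`

Adapted from `Pool/Agent/E8helper55/CTM/Box2.lean` and `Pool/Agent/E8helper56/CTL3/BoxL.lean`.
-/

set_option autoImplicit false

open scoped Classical

namespace Pool.Agent.E8helper56.CTM

open Finset
open Pool.Agent.Y692.QS (Ei)
open Pool.Agent.Y715.T.Rec (cs)
open Pool.Agent.Y715.T.RecG (Pq)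
open Pool.Agent.Y703.XK (prs HB S_EQ)
open Pool.Agent.Y703.XL (cr)
open Pool.Agent.Y688.XK (cs_symm ext_sum HB_sub)
open Pool.Agent.Y170.XL (em em_bij fe fe_one fe_two sum_em)
open Pool.Agent.R419.KF (wt wt_one wt_ne)
open Pool.Agent.E8helper20.CTM (c2 c3 lf Nd9 BoxM n0 nX S_BOX0)

/-- the label of a prime with respect to the small primes and modulo `9` -/
noncomputable def lb0 (S₀ : Finset Ei) (x : Ei) : Option (Option S₀) → ZMod 3
  | none => c3 x
  | some none => c2 x
  | some (some u) => cs u x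

/-- the good labels -/
def LN0 {ι : Type} (S₀ : Finset Ei) (β : ι → Option (Option S₀) → ZMod 3) : Prop :=
  ∀ w : Option (Option S₀) → ZMod 3, (∃ u, w u ≠ 0) → ∃ i, ∑ u, w u * β i u ≠ 0

section one
variable {ι : Type} [Fintype ι] [LinearOrder ι] {M S₀ : Finset Ei} {p : ι → Ei}

omit [LinearOrder ι] in
theorem nd9_iff0 :
    Nd9 S₀ (univ.image p) ↔ LN0 S₀ (fun i => lb0 S₀ (p i)) := by
  unfold Nd9 LN0
  constructor
  · intro h w hw
    obtain ⟨v, hv⟩ : ∃ v : Ei → ZMod 3, ∀ n, v n = if h : n ∈ S₀ then w (some (some ⟨n, h⟩))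
      else 0 := ⟨_, fun _ => rfl⟩
    have hvu : ∀ u : S₀, v u = w (some (some u)) := fun u => by rw [hv, dif_pos u.2]
    obtain ⟨x, hx, hx2⟩ := h (w (some none)) (w none) v (by
      obtain ⟨u, hu⟩ := hw
      rcases u with _ | _ | u
      · exact Or.inr (Or.inl hu)
      · exact Or.inl hu
      · exact Or.inr (Or.inr ⟨u, u.2, by rw [hvu]; exact hu⟩))
    rw [Finset.mem_image] at hx
    obtain ⟨i, -, rfl⟩ := hx
    refine ⟨i, ?_⟩
    rw [← Finset.sum_coe_sort S₀] at hx2
    intro h0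
    apply hx2
    rw [← h0, Fintype.sum_option, Fintype.sum_option]
    have e : ∑ u : S₀, v u * cs u (p i) =
        ∑ u : S₀, w (some (some u)) * lb0 S₀ (p i) (some (some u)) := by
      refine Finset.sum_congr rfl fun u _ => ?_
      rw [hvu]
      rfl
    rw [e]
    simp only [lb0, lf]
    ring
  · intro h t t' v hw
    obtain ⟨i, hi⟩ := h (fun o => match o with
      | none => t'
      | some none => t
      | some (some u) => v u) (by
        rcases hw with hw | hw | ⟨u, hu0, hu⟩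
        · exact ⟨some none, hw⟩
        · exact ⟨none, hw⟩
        · exact ⟨some (some ⟨u, hu0⟩), hu⟩)
    refine ⟨p i, Finset.mem_image_of_mem _ (Finset.mem_univ _), ?_⟩
    rw [← Finset.sum_coe_sort S₀]
    rw [Fintype.sum_option, Fintype.sum_option] at hi
    intro h0
    apply hi
    rw [← h0]
    simp only [lb0, lf]
    ring

/-- the systems agree -/
theorem sol_iff0 (hM : M ⊆ S₀) (hp : Function.Injective p) (hpr : ∀ i, Pq (p i))
    (hS₀ : ∀ u ∈ S₀, Pq u) (hd : ∀ i, p i ∉ S₀) (v : ↥(S₀ ∪ univ.image p) → ZMod 3)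
    (s : ZMod 3) (c : S₀ → ZMod 3) (d : ι → ZMod 3)
    (hc : ∀ u, c u = v (em S₀ p (Sum.inl u))) (hdd : ∀ l, d l = v (em S₀ p (Sum.inr l))) :
    ((∀ π : ↥(S₀ ∪ univ.image p), ∑ ρ : ↥(S₀ ∪ univ.image p), wt M ρ * cs π ρ * (v ρ - v π) +
      s * c2 π = 0) ∧
      (∑ ρ : ↥(S₀ ∪ univ.image p), wt M ρ * c2 ρ = 0 →
        ∑ ρ : ↥(S₀ ∪ univ.image p), wt M ρ * c2 ρ * v ρ +
          (∑ ρ : ↥(S₀ ∪ univ.image p), wt M ρ * c3 ρ) * s = 0)) ↔
    ((∀ u : S₀, ∑ w : S₀, wt M u * wt M w * cs u w * (c w - c u) +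
      ∑ l, wt M u * cs u (p l) * (d l - c u) + s * (wt M u * c2 u) = 0) ∧
    (∀ k : ι, ∑ u : S₀, wt M u * cs u (p k) * (c u - d k) +
      ∑ l, Pool.Agent.Y703.XK.ext (fun e : prs ι => cs (p e.1.1) (p e.1.2)) k l *
        (d l - d k) + s * c2 (p k) = 0) ∧
    (∑ u : S₀, wt M u * c2 u + ∑ k, c2 (p k) = 0 →
      ∑ u : S₀, wt M u * c2 u * c u + ∑ k, c2 (p k) * d k +
        (∑ u : S₀, wt M u * c3 u + ∑ l, c3 (p l)) * s = 0)) := by
  have hw : ∀ i, wt M (em S₀ p (Sum.inr i) : Ei) = 1 := fun i => wt_one fun h => hd i (hM h)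
  obtain rfl : c = fun u => v (em S₀ p (Sum.inl u)) := funext hc
  obtain rfl : d = fun l => v (em S₀ p (Sum.inr l)) := funext hdd
  have hsym : ∀ k : ι, ∑ u : S₀, wt M u * cs (p k) u *
      (v (em S₀ p (Sum.inl u)) - v (em S₀ p (Sum.inr k))) =
      ∑ u : S₀, wt M u * cs u (p k) *
        (v (em S₀ p (Sum.inl u)) - v (em S₀ p (Sum.inr k))) := by
    intro k
    refine Finset.sum_congr rfl fun u _ => ?_
    rw [cs_symm (hpr k) (hS₀ u u.2)]
  have hext := fun k => ext_sum hpr k (fun l => v (em S₀ p (Sum.inr l)))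
  have hrow1 : ∀ u : S₀, ∑ ρ : ↥(S₀ ∪ univ.image p), wt M ρ * cs u ρ *
      (v ρ - v (em S₀ p (Sum.inl u))) =
      ∑ w : S₀, wt M w * cs u w * (v (em S₀ p (Sum.inl w)) - v (em S₀ p (Sum.inl u))) +
      ∑ l, cs u (p l) * (v (em S₀ p (Sum.inr l)) - v (em S₀ p (Sum.inl u))) := by
    intro u
    rw [sum_em hp hd]
    congr 1
    refine Finset.sum_congr rfl fun l _ => ?_
    rw [hw, one_mul]
    rfl
  have hrow2 : ∀ k : ι, ∑ ρ : ↥(S₀ ∪ univ.image p), wt M ρ * cs (p k) ρ *
      (v ρ - v (em S₀ p (Sum.inr k))) =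
      ∑ w : S₀, wt M w * cs (p k) w * (v (em S₀ p (Sum.inl w)) - v (em S₀ p (Sum.inr k))) +
      ∑ l, cs (p k) (p l) * (v (em S₀ p (Sum.inr l)) - v (em S₀ p (Sum.inr k))) := by
    intro k
    rw [sum_em hp hd]
    congr 1
    refine Finset.sum_congr rfl fun l _ => ?_
    rw [hw, one_mul]
    rfl
  have hrow3 : ∑ ρ : ↥(S₀ ∪ univ.image p), wt M ρ * c2 ρ * v ρ =
      ∑ u : S₀, wt M u * c2 u * v (em S₀ p (Sum.inl u)) +
      ∑ l, c2 (p l) * v (em S₀ p (Sum.inr l)) := by
    rw [sum_em hp hd]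
    congr 1
    refine Finset.sum_congr rfl fun l _ => ?_
    rw [hw, one_mul]
    rfl
  have hrow4 : ∑ ρ : ↥(S₀ ∪ univ.image p), wt M ρ * c2 ρ =
      ∑ u : S₀, wt M u * c2 u + ∑ l, c2 (p l) := by
    rw [sum_em hp hd]
    congr 1
    refine Finset.sum_congr rfl fun l _ => ?_
    rw [hw, one_mul]
    rfl
  have hrow5 : ∑ ρ : ↥(S₀ ∪ univ.image p), wt M ρ * c3 ρ =
      ∑ u : S₀, wt M u * c3 u + ∑ l, c3 (p l) := by
    rw [sum_em hp hd]
    congr 1
    refine Finset.sum_congr rfl fun l _ => ?_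
    rw [hw, one_mul]
    rfl
  have hmul : ∀ u : S₀, ∑ w : S₀, wt M u * wt M w * cs u w *
      (v (em S₀ p (Sum.inl w)) - v (em S₀ p (Sum.inl u))) +
      ∑ l, wt M u * cs u (p l) * (v (em S₀ p (Sum.inr l)) - v (em S₀ p (Sum.inl u))) +
      s * (wt M u * c2 u) =
      wt M u * (∑ w : S₀, wt M w * cs u w *
        (v (em S₀ p (Sum.inl w)) - v (em S₀ p (Sum.inl u))) +
      ∑ l, cs u (p l) * (v (em S₀ p (Sum.inr l)) - v (em S₀ p (Sum.inl u))) + s * c2 u) := by
    intro u
    have a1 : ∑ w : S₀, wt M u * wt M w * cs u w *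
        (v (em S₀ p (Sum.inl w)) - v (em S₀ p (Sum.inl u))) =
        wt M u * ∑ w : S₀, wt M w * cs u w *
        (v (em S₀ p (Sum.inl w)) - v (em S₀ p (Sum.inl u))) := by
      rw [Finset.mul_sum]
      exact Finset.sum_congr rfl fun v _ => by ring
    have a2 : ∑ l, wt M u * cs u (p l) * (v (em S₀ p (Sum.inr l)) - v (em S₀ p (Sum.inl u))) =
        wt M u * ∑ l, cs u (p l) * (v (em S₀ p (Sum.inr l)) - v (em S₀ p (Sum.inl u))) := by
      rw [Finset.mul_sum]
      exact Finset.sum_congr rfl fun v _ => by ring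
    rw [a1, a2]
    ring
  refine and_congr ?_ ?_ |>.trans and_assoc
  · constructor
    · intro h
      refine ⟨fun u => ?_, fun k => ?_⟩
      · have h1 : ∑ ρ : ↥(S₀ ∪ univ.image p), wt M ρ * cs u ρ *
            (v ρ - v (em S₀ p (Sum.inl u))) + s * c2 u = 0 := h (em S₀ p (Sum.inl u))
        rw [hrow1 u] at h1
        refine (hmul u).trans ?_
        rw [h1, mul_zero]
      · have h1 : ∑ ρ : ↥(S₀ ∪ univ.image p), wt M ρ * cs (p k) ρ *
            (v ρ - v (em S₀ p (Sum.inr k))) + s * c2 (p k) = 0 := h (em S₀ p (Sum.inr k))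
        rw [hrow2 k, hsym, ← hext k] at h1
        exact h1
    · rintro ⟨h1, h2⟩ x
      obtain ⟨y, rfl⟩ := (em_bij hp hd).2 x
      rcases y with u | k
      · have h3 := (hmul u).symm.trans (h1 u)
        have h4 := (mul_eq_zero.1 h3).resolve_left (wt_ne M _)
        change ∑ ρ : ↥(S₀ ∪ univ.image p), wt M ρ * cs u ρ *
            (v ρ - v (em S₀ p (Sum.inl u))) + s * c2 u = 0
        rw [hrow1 u]
        exact h4
      · have h3 := h2 k
        change ∑ ρ : ↥(S₀ ∪ univ.image p), wt M ρ * cs (p k) ρ *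
            (v ρ - v (em S₀ p (Sum.inr k))) + s * c2 (p k) = 0
        rw [hrow2 k, hsym, ← hext k]
        exact h3
  · rw [hrow3, hrow4, hrow5]

/-- **the numbers of solutions** -/
theorem nX_eq (hM : M ⊆ S₀) (hp : Function.Injective p) (hpr : ∀ i, Pq (p i))
    (hS₀ : ∀ u ∈ S₀, Pq u) (hd : ∀ i, p i ∉ S₀) :
    n0 M (S₀ ∪ univ.image p) = nX (fun u v : S₀ => wt M u * wt M v * cs u v)
      (fun (u : S₀) l => wt M u * cs u (p l)) (fun u : S₀ => wt M u * c2 u)
      (fun l => c2 (p l)) (∑ u : S₀, wt M u * c3 u + ∑ l, c3 (p l))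
      (Pool.Agent.Y703.XK.ext fun e : prs ι => cs (p e.1.1) (p e.1.2)) := by
  unfold n0 nX
  refine Nat.card_congr (Equiv.subtypeEquiv ((fe hp hd).prodCongr (Equiv.refl _)) fun y => ?_)
  exact sol_iff0 hM hp hpr hS₀ hd y.1 y.2 _ _ (fun u => rfl) (fun l => rfl)

end one

/-- **The count in a box.** -/
theorem t_BOX0 : S_BOX0 := by
  intro hEQ hLA r ι _ _ C X κ M S₀ hM hκ hCX hHB hS₀ hC hdis hcard
  obtain ⟨cc, hcc⟩ : ∃ cc : ℝ, cc = 3 ^ (r + 1) * (3 ^ (S₀.card + 1) / 3 ^ Fintype.card ι) :=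
    ⟨_, rfl⟩
  obtain ⟨R, hR⟩ : ∃ R : ℝ, R = 3 ^ (prs ι).card * (κ * ∏ j, (X j : ℝ)) := ⟨_, rfl⟩
  have hcc0 : 0 ≤ cc := by rw [hcc]; positivity
  have hR0 : 0 ≤ R := by
    rw [hR]
    exact mul_nonneg (by positivity)
      (mul_nonneg hκ (Finset.prod_nonneg fun j _ => by positivity))
  have hco : Fintype.card (Option (Option S₀)) = S₀.card + 2 := by
    rw [Fintype.card_option, Fintype.card_option, Fintype.card_coe]
  -- facts on tuples
  have hinj : ∀ p ∈ Fintype.piFinset C, Function.Injective p := by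
    intro p hp i j hij
    rw [Fintype.mem_piFinset] at hp
    by_contra hne
    have h1 := Finset.disjoint_left.1 (hdis i j hne) (hp i)
    rw [hij] at h1
    exact h1 (hp j)
  have hd : ∀ p ∈ Fintype.piFinset C, ∀ i, p i ∉ S₀ := by
    intro p hp i
    rw [Fintype.mem_piFinset] at hp
    exact (hC i _ (hp i)).2
  have hpr : ∀ p ∈ Fintype.piFinset C, ∀ i, Pq (p i) := by
    intro p hp i
    rw [Fintype.mem_piFinset] at hp
    exact (hC i _ (hp i)).1
  -- the part with given labels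
  have h1 : ∀ β : ι → Option (Option S₀) → ZMod 3, LN0 S₀ β →
      |(((Fintype.piFinset C).filter fun p => (fun i => lb0 S₀ (p i)) = β ∧
          n0 M (S₀ ∪ univ.image p) = 3 ^ (r + 1)).card : ℝ) -
        cr r * (((Fintype.piFinset C).filter fun p => (fun i => lb0 S₀ (p i)) = β).card : ℝ)| ≤
      cc * (((Fintype.piFinset C).filter fun p => (fun i => lb0 S₀ (p i)) = β).card : ℝ) + R := by
    intro β hβ
    obtain ⟨C', hC'⟩ : ∃ C' : ι → Finset Ei, C' = fun i => (C i).filter fun q => lb0 S₀ q = β i :=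
      ⟨_, rfl⟩
    have hpi : (Fintype.piFinset C).filter (fun p => (fun i => lb0 S₀ (p i)) = β) =
        Fintype.piFinset C' := by
      ext p
      simp only [Finset.mem_filter, Fintype.mem_piFinset, hC']
      constructor
      · rintro ⟨h2, h3⟩ i
        exact ⟨h2 i, congrFun h3 i⟩
      · intro h2
        exact ⟨fun i => (h2 i).1, funext fun i => (h2 i).2⟩
    have h2 := hLA r S₀ ι (fun u v : S₀ => wt M u * wt M v * cs u v)
      (fun (u : S₀) l => wt M u * β l (some (some u))) (fun u : S₀ => wt M u * c2 u)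
      (fun l => β l (some none)) (∑ u : S₀, wt M u * c3 u + ∑ l, β l none)
      (by rw [Fintype.card_coe]; omega)
      (fun u v => by rw [cs_symm (hS₀ u u.2) (hS₀ v v.2), mul_comm (wt M u) (wt M v)])
      (fun w t hw => by
        obtain ⟨k, hk⟩ := hβ (fun o => match o with
          | none => 0
          | some none => t
          | some (some u) => w u * wt M u) (by
            rcases hw with hw | ⟨u, hu⟩
            · exact ⟨some none, hw⟩
            · exact ⟨some (some u), mul_ne_zero hu (wt_ne M _)⟩)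
        refine ⟨k, fun h0 => hk ?_⟩
        rw [Fintype.sum_option, Fintype.sum_option]
        have e1 : ∑ u : S₀, w u * wt M u * β k (some (some u)) =
            ∑ u : S₀, w u * (wt M u * β k (some (some u))) :=
          Finset.sum_congr rfl fun u _ => mul_assoc _ _ _
        rw [e1]
        linear_combination h0)
    obtain ⟨Q, hQ⟩ : ∃ Q : (prs ι → ZMod 3) → Prop, Q = fun α =>
        nX (fun u v : S₀ => wt M u * wt M v * cs u v)
          (fun (u : S₀) l => wt M u * β l (some (some u))) (fun u : S₀ => wt M u * c2 u)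
          (fun l => β l (some none)) (∑ u : S₀, wt M u * c3 u + ∑ l, β l none)
          (Pool.Agent.Y703.XK.ext α) = 3 ^ (r + 1) := ⟨_, rfl⟩
    have h3 := hEQ ι C' X κ hκ
      (fun i => (Finset.card_le_card (by rw [hC']; exact Finset.filter_subset _ _)).trans (hCX i))
      (by rw [hC']; exact HB_sub hHB fun i q => lb0 S₀ q = β i) Q
    have h4 : ((Fintype.piFinset C).filter fun p => (fun i => lb0 S₀ (p i)) = β ∧
        n0 M (S₀ ∪ univ.image p) = 3 ^ (r + 1)) = ((Fintype.piFinset C').filter fun p =>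
          Q fun e => cs (p e.1.1) (p e.1.2)) := by
      rw [← hpi, Finset.filter_filter]
      refine Finset.filter_congr fun p hp => ?_
      refine and_congr_right fun hl => ?_
      rw [nX_eq hM (hinj p hp) (hpr p hp) hS₀ (hd p hp)]
      subst hl
      rw [hQ]
      exact Iff.rfl
    have h5 : (((Fintype.piFinset C').card : ℕ) : ℝ) = ∏ j, ((C' j).card : ℝ) := by
      rw [Fintype.card_piFinset]
      push_cast
      rfl
    rw [h4, hpi, h5]
    rw [Fintype.card_coe, ← hcc] at h2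
    rw [← hR] at h3
    obtain ⟨n, hn⟩ : ∃ n : ℝ, n = (((Fintype.piFinset C').filter fun p =>
          Q fun e => cs (p e.1.1) (p e.1.2)).card : ℝ) := ⟨_, rfl⟩
    obtain ⟨q, hq⟩ : ∃ q : ℝ, q = ((univ.filter Q).card : ℝ) / 3 ^ (prs ι).card := ⟨_, rfl⟩
    obtain ⟨P, hP⟩ : ∃ P : ℝ, P = ∏ j, ((C' j).card : ℝ) := ⟨_, rfl⟩
    have hP0 : 0 ≤ P := by
      rw [hP]
      exact Finset.prod_nonneg fun j _ => by positivity
    have h2' : |q - cr r| ≤ cc := by
      have e : (univ.filter Q) = (univ.filter fun α : prs ι → ZMod 3 =>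
          nX (fun u v : S₀ => wt M u * wt M v * cs u v)
            (fun (u : S₀) l => wt M u * β l (some (some u))) (fun u : S₀ => wt M u * c2 u)
            (fun l => β l (some none)) (∑ u : S₀, wt M u * c3 u + ∑ l, β l none)
            (Pool.Agent.Y703.XK.ext α) = 3 ^ (r + 1)) := by
        ext α
        rw [Finset.mem_filter, Finset.mem_filter, hQ]
      rw [hq, e]
      exact h2
    rw [← hn, ← hq, ← hP] at h3
    rw [← hn, ← hP]
    have h6 : |n - cr r * P| ≤ |n - q * P| + |q - cr r| * P := by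
      have h7 : n - cr r * P = (n - q * P) + (q - cr r) * P := by ring
      have h8 : |(q - cr r) * P| = |q - cr r| * P := by rw [abs_mul, abs_of_nonneg hP0]
      rw [h7, ← h8]
      exact abs_add_le _ _
    have h7 : |q - cr r| * P ≤ cc * P := mul_le_mul_of_nonneg_right h2' hP0
    linarith
  -- sum over the labels
  obtain ⟨LL, hLL⟩ : ∃ LL : Finset (ι → Option (Option S₀) → ZMod 3),
      LL = univ.filter (fun β => LN0 S₀ β) := ⟨_, rfl⟩
  have hfib : ∀ T : (ι → Ei) → Prop,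
      (((Fintype.piFinset C).filter fun p => Nd9 S₀ (univ.image p) ∧ T p).card : ℝ) =
      ∑ β ∈ LL, (((Fintype.piFinset C).filter fun p =>
        (fun i => lb0 S₀ (p i)) = β ∧ T p).card : ℝ) := by
    intro T
    rw [Finset.card_eq_sum_card_fiberwise (f := fun (p : ι → Ei) (i : ι) => lb0 S₀ (p i))
      (t := LL) (by
        intro p hp
        rw [Finset.mem_coe, Finset.mem_filter] at hp
        rw [Finset.mem_coe, hLL, Finset.mem_filter]
        exact ⟨Finset.mem_univ _, (nd9_iff0).1 hp.2.1⟩)]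
    push_cast
    refine Finset.sum_congr rfl fun β hβ => ?_
    rw [hLL, Finset.mem_filter] at hβ
    congr 2
    ext p
    simp only [Finset.mem_filter]
    constructor
    · rintro ⟨⟨h3, h4, h4'⟩, h5⟩
      exact ⟨h3, h5, h4'⟩
    · rintro ⟨h3, h4, h5⟩
      refine ⟨⟨h3, ?_, h5⟩, h4⟩
      rw [nd9_iff0, h4]
      exact hβ.2
  have hf1 := hfib fun p => n0 M (S₀ ∪ univ.image p) = 3 ^ (r + 1)
  have hf2 : (((Fintype.piFinset C).filter fun p => Nd9 S₀ (univ.image p)).card : ℝ) =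
      ∑ β ∈ LL, (((Fintype.piFinset C).filter fun p =>
        (fun i => lb0 S₀ (p i)) = β).card : ℝ) := by
    have hf3 := hfib fun _ => True
    refine Eq.trans ?_ (hf3.trans ?_)
    · congr 2
      ext p
      simp only [Finset.mem_filter, and_true]
    · refine Finset.sum_congr rfl fun β _ => ?_
      congr 2
      ext p
      simp only [Finset.mem_filter, and_true]
  rw [← hcc, hf1, hf2, Finset.mul_sum, ← Finset.sum_sub_distrib]
  have key := fun (β : ι → Option (Option S₀) → ZMod 3) (hβ : β ∈ LL) => h1 β (by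
    rw [hLL] at hβ
    exact (Finset.mem_filter.1 hβ).2)
  refine (Finset.abs_sum_le_sum_abs _ _).trans ?_
  refine le_trans (le_of_eq ?_) ((Finset.sum_le_sum key).trans ?_)
  · refine Finset.sum_congr rfl fun β _ => ?_
    congr 3
    congr 1
    ext p
    simp only [Finset.mem_filter]
  rw [Finset.sum_add_distrib, ← Finset.mul_sum, Finset.sum_const, nsmul_eq_mul]
  have h5 : ((LL.card : ℕ) : ℝ) ≤ 3 ^ ((S₀.card + 2) * Fintype.card ι) := by
    have h6 : LL.card ≤ Fintype.card (ι → Option (Option S₀) → ZMod 3) :=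
      Finset.card_le_univ _
    rw [Fintype.card_fun, Fintype.card_fun, ZMod.card, hco, ← pow_mul] at h6
    exact_mod_cast h6
  have h6 := mul_le_mul_of_nonneg_right h5 hR0
  rw [pow_add, mul_assoc, ← hR]
  linarith

end Pool.Agent.E8helper56.CTM
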